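import Pool.Agent.Helper99.WP.GoalsK

set_option autoImplicit false

open Finset

namespace Pool.Agent.Helper42.WP

open Pool.Agent.Helper99.WP Pool.Agent.Helper99.ERW

theorem ind_nonneg {d : ℕ} (A : Finset (Site d)) (x : Site d) : 0 ≤ ind A x := by
  unfold ind
  split_ifs <;> norm_num

theorem D2 (hGCM : GCM_stmt) (hQQQ : QQQ_stmt) (hSCL : SCL_stmt) : D2_stmt := by
  intro κ ρ₀ M hκ hρ₀
  -- reduce to `ρ ≤ 1`
  obtain ⟨ρ, hρ, hρ1, hρρ₀⟩ : ∃ ρ : ℝ, 0 < ρ ∧ ρ ≤ 1 ∧ ρ ≤ ρ₀ :=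
    ⟨min ρ₀ 1, lt_min hρ₀ one_pos, min_le_right _ _, min_le_left _ _⟩
  obtain ⟨b, r0, c, hc, hb, hr0, hS⟩ := hSCL 2 κ (ρ / 2) hκ (by positivity)
  obtain ⟨hmem, hcard, -, -, hsub, hmono⟩ := hQQQ 2
  obtain ⟨n, hn⟩ := exists_nat_ge (M / c)
  have hMn : M ≤ n * c := by rwa [div_le_iff₀ hc] at hn
  obtain ⟨q, hq⟩ := exists_nat_ge (16 / ρ)
  set s : ℕ := b ^ n * r0 with hs
  have hs1 : 1 ≤ s := Nat.mul_pos (Nat.pow_pos (by omega)) hr0
  have hq' : 16 ≤ (q : ℝ) * ρ := by rwa [div_le_iff₀ hρ] at hq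
  have hq16 : 16 ≤ (q : ℝ) := by
    refine le_trans ?_ hq
    rw [le_div_iff₀ hρ]
    linarith
  have hq1 : 1 ≤ q := by
    have : (1 : ℝ) ≤ (q : ℝ) := by linarith
    exact_mod_cast this
  set R : ℕ := q * s with hR
  have hsR : s ≤ R := Nat.le_mul_of_pos_left s hq1
  refine ⟨R, ?_⟩
  intro p hp A hA hAc
  obtain ⟨-, -, -, hpos, -, -, -⟩ := hGCM 2 κ p hκ hp (Q R 0)
  have hgpos : ∀ (D : Finset (Site 2)) (x y : Site 2), 0 ≤ gg p D x y := by
    intro D x y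
    obtain ⟨-, -, -, h4, -, -, -⟩ := hGCM 2 κ p hκ hp D
    exact h4 _ (fun z _ => ind_nonneg _ z) x
  -- the set `A'`
  set A' : Finset (Site 2) := A.filter (fun x => x ∈ Q (R - s) (0 : Site 2)) with hA'
  have hA'A : A' ⊆ A := Finset.filter_subset _ _
  have hA'Q : A' ⊆ Q R 0 := hA'A.trans hA
  have hcQ : ∀ r : ℕ, ((Q r (0 : Site 2)).card : ℝ) = (2 * r + 1) ^ 2 := by
    intro r
    rw [hcard r 0]
    push_cast
    ring
  have hA'c : ρ / 2 * (Q R (0 : Site 2)).card ≤ A'.card := by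
    have h1 : A \ A' ⊆ Q R 0 \ Q (R - s) 0 := by
      intro x hx
      rw [Finset.mem_sdiff] at hx ⊢
      refine ⟨hA hx.1, fun hx2 => hx.2 ?_⟩
      rw [hA', Finset.mem_filter]
      exact ⟨hx.1, hx2⟩
    have h2 : (A \ A').card ≤ (Q R (0 : Site 2) \ Q (R - s) 0).card := Finset.card_le_card h1
    have hss : Q (R - s) (0 : Site 2) ⊆ Q R 0 := hmono _ _ _ (Nat.sub_le _ _)
    have h3 : (A \ A').card + A'.card = A.card := Finset.card_sdiff_add_card_eq_card hA'A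
    have h4 : (Q R (0 : Site 2) \ Q (R - s) 0).card + (Q (R - s) (0 : Site 2)).card
        = (Q R (0 : Site 2)).card := Finset.card_sdiff_add_card_eq_card hss
    have h2' : ((A \ A').card : ℝ) ≤ ((Q R (0 : Site 2) \ Q (R - s) 0).card : ℝ) := by
      exact_mod_cast h2
    have h3' : ((A \ A').card : ℝ) + A'.card = A.card := by exact_mod_cast h3
    have h4' : ((Q R (0 : Site 2) \ Q (R - s) 0).card : ℝ) + ((Q (R - s) (0 : Site 2)).card : ℝ)
        = ((Q R (0 : Site 2)).card : ℝ) := by exact_mod_cast h4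
    have hsub' : ((R - s : ℕ) : ℝ) = (R : ℝ) - s := by
      push_cast [Nat.cast_sub hsR]
      ring
    rw [hcQ (R - s), hcQ R, hsub'] at h4'
    rw [hcQ R] at hAc ⊢
    have hRr : (R : ℝ) = q * s := by rw [hR]; push_cast; ring
    have hsr : (1 : ℝ) ≤ s := by exact_mod_cast hs1
    have hkey : 4 * (s : ℝ) ≤ ρ / 2 * (2 * R + 1) := by
      rw [hRr]
      nlinarith [mul_le_mul_of_nonneg_right hq' (by linarith : (0 : ℝ) ≤ (s : ℝ))]
    have hpos2 : (0 : ℝ) ≤ 2 * (R : ℝ) + 1 := by positivity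
    have hkey2 : 4 * (s : ℝ) * (2 * R + 1) ≤ ρ / 2 * (2 * R + 1) ^ 2 := by
      nlinarith [mul_le_mul_of_nonneg_right hkey hpos2]
    have hρA : ρ * (2 * (R : ℝ) + 1) ^ 2 ≤ ρ₀ * (2 * (R : ℝ) + 1) ^ 2 :=
      mul_le_mul_of_nonneg_right hρρ₀ (by positivity)
    nlinarith [sq_nonneg (s : ℝ)]
  -- telescoping
  have hpt : ∀ x ∈ A', ∑ k ∈ range n, (gg p (Q (b * (b ^ k * r0)) x) x x -
      gg p (Q (b ^ k * r0) x) x x) ≤ gg p (Q R 0) x x := by
    intro x hx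
    have hx2 : x ∈ Q (R - s) (0 : Site 2) := (Finset.mem_filter.1 hx).2
    have hsubx : Q s x ⊆ Q R (0 : Site 2) := by
      have := hsub s (R - s) x 0 hx2
      rwa [Nat.add_sub_cancel' hsR] at this
    have h6 : gg p (Q s x) x x ≤ gg p (Q R 0) x x := by
      obtain ⟨-, -, -, -, -, h6, -⟩ := hGCM 2 κ p hκ hp (Q s x)
      exact h6 _ hsubx _ (fun z _ => ind_nonneg _ z) x
    have htel : ∑ k ∈ range n, (gg p (Q (b * (b ^ k * r0)) x) x x -
        gg p (Q (b ^ k * r0) x) x x) = gg p (Q (b ^ n * r0) x) x x -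
          gg p (Q (b ^ 0 * r0) x) x x := by
      rw [← Finset.sum_range_sub (fun k => gg p (Q (b ^ k * r0) x) x x) n]
      refine Finset.sum_congr rfl (fun k _ => ?_)
      have : b * (b ^ k * r0) = b ^ (k + 1) * r0 := by ring
      rw [this]
    have h0 := hgpos (Q (b ^ 0 * r0) x) x x
    rw [htel]
    linarith
  have hbr : ∀ k ∈ range n, c * (Q R (0 : Site 2)).card ≤
      ∑ x ∈ A', (gg p (Q (b * (b ^ k * r0)) x) x x - gg p (Q (b ^ k * r0) x) x x) := by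
    intro k hk
    have hk' : k < n := Finset.mem_range.1 hk
    have hbk : 1 ≤ b ^ k := Nat.pow_pos (by omega)
    have h1 : r0 ≤ b ^ k * r0 := Nat.le_mul_of_pos_left r0 hbk
    have h2 : b ^ k * r0 ≤ R :=
      (Nat.mul_le_mul_right r0 (Nat.pow_le_pow_right (by omega) hk'.le)).trans hsR
    have h3 := hS p hp R (b ^ k * r0) h1 h2 A' hA'Q hA'c
    have hr : (0 : ℝ) < ((b ^ k * r0 : ℕ) : ℝ) := by
      exact_mod_cast (lt_of_lt_of_le hr0 h1)
    rwa [mul_div_assoc, div_self (by positivity), mul_one] at h3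
  calc M * (Q R (0 : Site 2)).card ≤ n * c * (Q R (0 : Site 2)).card :=
        mul_le_mul_of_nonneg_right hMn (by positivity)
    _ = ∑ k ∈ range n, c * ((Q R (0 : Site 2)).card : ℝ) := by
        rw [Finset.sum_const, Finset.card_range, nsmul_eq_mul]
        ring
    _ ≤ ∑ k ∈ range n, ∑ x ∈ A', (gg p (Q (b * (b ^ k * r0)) x) x x -
          gg p (Q (b ^ k * r0) x) x x) := Finset.sum_le_sum hbr
    _ = ∑ x ∈ A', ∑ k ∈ range n, (gg p (Q (b * (b ^ k * r0)) x) x x -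
          gg p (Q (b ^ k * r0) x) x x) := Finset.sum_comm
    _ ≤ ∑ x ∈ A', gg p (Q R 0) x x := Finset.sum_le_sum hpt
    _ ≤ ∑ x ∈ A, gg p (Q R 0) x x :=
        Finset.sum_le_sum_of_subset_of_nonneg hA'A (fun x _ _ => hgpos _ _ _)

end Pool.Agent.Helper42.WP
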